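import Pool.Agent.CQZ.Main

/-!
# MP_e19e3f_gt, Q1: the smooth knot concordance group modulo quasipositive knots has infinite rank,
and even a free direct summand of infinite rank

The definitions (`C`, `Q`, `Knot`, …) are in `Pool/Agent/CQ/Stmt.lean`, with the reasons why `C` is
the smooth knot concordance group. An outline of the proof is in `Pool/Agent/CQ/PAPER.md` and
`Pool/Agent/CQ/PAPER_H.md`; the free summand is split off in `Pool/Agent/CQZ`.
-/

open scoped TensorProduct

namespace Pool.Agent.Results.MP_e19e3f_gt.FreeSummandModQuasipositive

/-- The quotient `C / Q` of the smooth knot concordance group by the subgroup generated by the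
quasipositive knots. -/
def CModQ : Type := Pool.Agent.CQ.C ⧸ Pool.Agent.CQ.Q

instance : AddCommGroup CModQ := QuotientAddGroup.Quotient.addCommGroup Pool.Agent.CQ.Q

/-- The quotient of the smooth knot concordance group by the subgroup generated by the quasipositive
knots is isomorphic to the direct sum of a free abelian group of infinite rank and some group `B`;
in particular its rank is infinite. -/
theorem result :
    (∃ B : AddSubgroup CModQ, Nonempty (CModQ ≃+ (ℕ →₀ ℤ) × B)) ∧
      ¬ FiniteDimensional ℚ (ℚ ⊗[ℤ] CModQ) :=
  ⟨Pool.Agent.CQZ.hasFreeSummand, Pool.Agent.CQ.rankInfinite⟩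

end Pool.Agent.Results.MP_e19e3f_gt.FreeSummandModQuasipositive
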